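import Pool.Agent.helper71.PQZ.Spec

/-!
# Row ELM of project PQZ (MP_23009a_al): the elementary moves
-/

set_option autoImplicit false

namespace Pool.Agent.PQZ

theorem ELM_max (f g f' g' : ℚ → ℚ) (hf : StrictMono f) (hg : StrictMono g) (h1 : ∀ x, f (f' x) = x) (h2 : ∀ x, g (g' x) = x) (x : ℚ) :
    max (f (min (f' x) (g' x))) (g (min (f' x) (g' x))) = x := by
  rcases le_total (f' x) (g' x) with h | h
  · rw [min_eq_left h, h1]
    exact max_eq_left ((hg.monotone h).trans_eq (h2 x))
  · rw [min_eq_right h, h2]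
    exact max_eq_right ((hf.monotone h).trans_eq (h1 x))

theorem ELM_min (f g f' g' : ℚ → ℚ) (hf : StrictMono f) (hg : StrictMono g) (h1 : ∀ x, f (f' x) = x) (h2 : ∀ x, g (g' x) = x) (x : ℚ) :
    min (f (max (f' x) (g' x))) (g (max (f' x) (g' x))) = x := by
  rcases le_total (f' x) (g' x) with h | h
  · rw [max_eq_right h, h2]
    exact min_eq_right ((h2 x).symm.le.trans (by
      have := hf.monotone h
      rw [h1] at this
      rw [h2]
      exact this))
  · rw [max_eq_left h, h1]
    exact min_eq_left (by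
      have := hg.monotone h
      rw [h2] at this
      exact this)

theorem ELM_up (hP : PER_stmt) (s a b : ℚ) (hs : 0 ≤ s) (hsa : s < a) (ha : a < 1) (hab : a ≤ b) (hb : b < 1) :
    ∃ g : GG, (∀ x, 0 ≤ x → x ≤ s → ap g x = x) ∧ ap g a = b := by
  have e1 : 0 < a - s := by linarith
  have e2 : 0 < 1 - a := by linarith
  have e3 : 0 < b - s := by linarith
  have e4 : 0 < 1 - b := by linarith
  obtain ⟨α, hα⟩ : ∃ α : ℚ, α = (b - s) / (a - s) := ⟨_, rfl⟩
  obtain ⟨β, hβ⟩ : ∃ β : ℚ, β = (1 - b) / (1 - a) := ⟨_, rfl⟩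
  have hα1 : 1 ≤ α := by
    rw [hα, le_div_iff₀ e1]
    linarith
  have hβ0 : 0 < β := by
    rw [hβ]
    exact div_pos e4 e2
  have hα2 : (a - s) * α = b - s := by
    rw [hα]
    field_simp
  have hβ2 : (1 - a) * β = 1 - b := by
    rw [hβ]
    field_simp
  have hα0 : 0 < α := by linarith
  -- the maps
  have m1 : StrictMono (fun x : ℚ => s + (x - s) * α) := by
    intro x y hxy
    show s + (x - s) * α < s + (y - s) * α
    have : (x - s) * α < (y - s) * α := mul_lt_mul_of_pos_right (by linarith) hα0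
    linarith
  have m2 : StrictMono (fun x : ℚ => 1 - (1 - x) * β) := by
    intro x y hxy
    show 1 - (1 - x) * β < 1 - (1 - y) * β
    have : (1 - y) * β < (1 - x) * β := mul_lt_mul_of_pos_right (by linarith) hβ0
    linarith
  have i1 : ∀ x : ℚ, (fun x : ℚ => s + (x - s) * α) ((fun x : ℚ => s + (x - s) / α) x) = x := by
    intro x
    show s + (s + (x - s) / α - s) * α = x
    field_simp
    ring
  have i2 : ∀ x : ℚ, (fun x : ℚ => 1 - (1 - x) * β) ((fun x : ℚ => 1 - (1 - x) / β) x) = x := by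
    intro x
    show 1 - (1 - (1 - (1 - x) / β)) * β = x
    field_simp
    ring
  have m3 : StrictMono (fun x : ℚ => min (s + (x - s) * α) (1 - (1 - x) * β)) := fun x y hxy => min_lt_min (m1 hxy) (m2 hxy)
  have i3 := ELM_min _ _ _ _ m1 m2 i1 i2
  have m4 : StrictMono (fun x : ℚ => max x (min (s + (x - s) * α) (1 - (1 - x) * β))) := fun x y hxy => max_lt_max hxy (m3 hxy)
  have i4 := ELM_max (fun x => x) _ (fun x => x) (fun x => max (s + (x - s) / α) (1 - (1 - x) / β)) (fun x y h => h) m3 (fun x => rfl) i3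
  have key : ∀ x, x ≤ s → max x (min (s + (x - s) * α) (1 - (1 - x) * β)) = x := by
    intro x hx
    apply max_eq_left
    apply (min_le_left _ _).trans
    have : (s - x) * 1 ≤ (s - x) * α := mul_le_mul_of_nonneg_left hα1 (by linarith)
    linarith
  obtain ⟨g, hg⟩ := hP (fun x : ℚ => max x (min (s + (x - s) * α) (1 - (1 - x) * β)))
    (fun x => min x (max (s + (x - s) / α) (1 - (1 - x) / β))) m4 i4 (key 0 hs) (by
      show max (1 : ℚ) (min (s + (1 - s) * α) (1 - (1 - 1) * β)) = 1
      apply max_eq_left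
      apply (min_le_right _ _).trans
      linarith)
  refine ⟨g, fun x h0 hx => ?_, ?_⟩
  · rw [hg x h0 (by linarith)]
    exact key x hx
  · rw [hg a (by linarith) ha.le]
    show max a (min (s + (a - s) * α) (1 - (1 - a) * β)) = b
    rw [hα2, hβ2]
    have e5 : s + (b - s) = b := by ring
    have e6 : 1 - (1 - b) = b := by ring
    rw [e5, e6, min_self]
    exact max_eq_right hab

theorem ELM_proof (hP : PER_stmt) : ELM_stmt := by
  intro s a b hs hsa ha hsb hb
  rcases le_total a b with h | h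
  · exact ELM_up hP s a b hs hsa ha h hb
  · obtain ⟨g, hg, hg2⟩ := ELM_up hP s b a hs hsb hb h ha
    refine ⟨g⁻¹, fun x h0 hx => ?_, ?_⟩
    · have := ap_inv_ap g x
      rw [hg x h0 hx] at this
      exact this
    · rw [← hg2]
      exact ap_inv_ap g b

end Pool.Agent.PQZ
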