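import Mathlib

/-!
# MP_23009a_al (Property (OB) versus fixed points), PROJECT PQZ: the frozen statement S00938, rows `pqz:XXX`

THEOREM. `G` = the order automorphisms `g` of `ℚ` with `g (x + 1) = g x + 1` (topology of pointwise convergence, `ℚ` discrete) is a non-Archimedean Polish group without property (OB) such that every continuous affine isometric action on a reflexive Banach space has a fixed point.

NOT (OB). `d x y = ⌊|x - y|⌋ + 1` for `x ≠ y` is a `G`-invariant metric on `ℚ`, and the orbit of `0` is `ℚ`.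

FIXED POINT. `V_0` = the stabilizer of `0`.
(1) `BDD`: `V_0` has bounded orbits. (2) `FXV`: `V_0` has a fixed point `x_0`: push a finite set `F` to `0+` by `g_n ∈ V_0`; the weak limit of `g_n y` is moved by at most `ε` by the elements of `V_0` which are the identity near `0+`, and these are dense in `V_0` (`APX`, `DEN`); a second weak limit, `ε → 0`.
(3) `FXG`: `x_q = g x_0` for `g 0 = q`; `u` = the weak limit of `x_q`, `q → 0+`, is fixed by `V_0`. For `ε > 0` there is a convex combination `c` of `x_q`, `q ∈ I ⊆ (0, 1)` finite, with `|c - u| < ε` (`WL4`). The stabilizer of `I` fixes `c`, and it contains `g` with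
`0 < g 0 < 1` (`MOV`). So `|g u - u| < 2 ε`. `V_0` is transitive on `(0, 1)` and fixes `u`: `|τ u - u| < 2 ε` for every `τ` with `0 < τ 0 < 1`. So `τ u = u`, and `V_0`, `τ` generate `G`.

RULES. Row `pqz:XXX` (problem MP_23009a_al): file `Pool/Agent/<seat>/PQZ/XXX.lean`, `import Pool.Agent.helper71.PQZ.Spec` (only this and Mathlib), `set_option autoImplicit false`, namespace `Pool.Agent.PQZ`, auxiliary lemmas prefixed `XXX_`, theorem `XXX_proof (h : YYY_stmt) .. : XXX_stmt` with the rows listed in `from` as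
hypotheses (unused ones dropped). No straight double quotes, no `convert`, `congr!`, `native_decide`. A false or doubtful statement: message to helper71 at once.
-/

open Filter Topology Set

set_option autoImplicit false

namespace Pool.Agent.PQZ

noncomputable section

/-- the rationals with the discrete topology -/
def D : Type := ℚ

instance : TopologicalSpace D := ⊥
instance : DiscreteTopology D := ⟨rfl⟩
instance : Countable D := inferInstanceAs (Countable ℚ)

/-- the order automorphisms of the rationals which commute with the shift by one -/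
def GS : Subgroup (ℚ ≃o ℚ) where
  carrier := {g | ∀ x : ℚ, g (x + 1) = g x + 1}
  mul_mem' := by
    intro a b ha hb x
    show a (b (x + 1)) = a (b x) + 1
    rw [hb x, ha (b x)]
  one_mem' := fun x => rfl
  inv_mem' := by
    intro a ha x
    show a.symm (x + 1) = a.symm x + 1
    rw [OrderIso.symm_apply_eq, ha, OrderIso.apply_symm_apply]

/-- the group `G` -/
def GG : Type := GS

instance : Group GG := inferInstanceAs (Group GS)

/-- `ap g x = g x` -/
def ap (g : GG) (x : ℚ) : ℚ := (show GS from g).1 x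

theorem ap_one (x : ℚ) : ap 1 x = x := rfl
theorem ap_mul (g h : GG) (x : ℚ) : ap (g * h) x = ap g (ap h x) := rfl
theorem ap_inv_ap (g : GG) (x : ℚ) : ap g⁻¹ (ap g x) = x := by
  rw [← ap_mul, inv_mul_cancel, ap_one]
theorem ap_ap_inv (g : GG) (x : ℚ) : ap g (ap g⁻¹ x) = x := by
  rw [← ap_mul, mul_inv_cancel, ap_one]
theorem ap_add_one (g : GG) (x : ℚ) : ap g (x + 1) = ap g x + 1 := (show GS from g).2 x
theorem ap_strictMono (g : GG) : StrictMono (ap g) := (show GS from g).1.strictMono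
theorem ap_ext (g h : GG) (e : ∀ x, ap g x = ap h x) : g = h := by
  apply Subtype.ext
  apply OrderIso.ext
  funext x
  exact e x
/-- a way to construct the elements of `G` -/
theorem ap_mk (f f' : ℚ → ℚ) (hf : StrictMono f) (h1 : ∀ x, f (f' x) = x) (h2 : ∀ x, f (x + 1) = f x + 1) :
    ∃ g : GG, ∀ x, ap g x = f x :=
  ⟨⟨hf.orderIsoOfRightInverse f f' h1, h2⟩, fun _ => rfl⟩

/-- the map which defines the topology -/
def emb (g : GG) : (D → D) × (D → D) := (fun x => ap g x, fun x => ap g⁻¹ x)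

instance : TopologicalSpace GG := TopologicalSpace.induced emb inferInstance

/-! ## T. The topology -/

/-- **Row TGR** (short). `continuous_induced_rng`; for discrete `D` the evaluation `(f, x) ↦ f x` is continuous `(D → D) × D → D` (or: for fixed `x`, `g ↦ ap g x` is locally constant; `(g, h) ↦ ap g (ap h x)`). -/
def TGR_stmt : Prop := IsTopologicalGroup GG

/-- **Row POL** (short-medium). `emb` is injective, and its range is closed: it is the set of the pairs `(f, f')` with `f (f' x) = x`, `f' (f x) = x`, `x < y → f x < f y`, `f (x + 1) = f x + 1` for all `x, y` (each condition is clopen, `D` discrete). `IsClosedEmbedding.polishSpace`; `D` is Polish (`polish_of_countable`), products too. -/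
def POL_stmt : Prop := PolishSpace GG

/-- **Row BAS** (short). Both directions are from the product topology; for the first: a neighbourhood of `1` contains `{g | ∀ x ∈ F, ap g x = x ∧ ap g⁻¹ x = x}`, and `ap g x = x → ap g⁻¹ x = x`. -/
def BAS_stmt : Prop := (∀ U ∈ 𝓝 (1 : GG), ∃ F : Finset ℚ, ∀ g : GG, (∀ x ∈ F, ap g x = x) → g ∈ U) ∧ ∀ x y : ℚ, IsOpen {g : GG | ap g x = y}

/-- **Row NAR** (short; from TGR, BAS). The open subgroup `{g | ∀ x ∈ F, ap g x = x}`. -/
def NAR_stmt : Prop := NonarchimedeanGroup GG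

/-- **Row NOB** (short-medium; from BAS). The metric `d x y = if x = y then 0 else ⌊|x - y|⌋ + 1` on (a copy of) `ℚ`; `⌊|x - y|⌋` is `G`-invariant: for `x ≤ y`, `n ≤ y - x < n + 1` iff `x + n ≤ y < x + n + 1`. The orbit maps are continuous as they are locally constant (BAS). The orbit of `0` contains all `n` (the translations). -/
def NOB_stmt : Prop := ¬ ∀ (X : Type) [MetricSpace X] (ρ : GG →* (X ≃ᵢ X)), (∀ x : X, Continuous (fun g : GG => ρ g x)) → ∀ x : X, Bornology.IsBounded (Set.range (fun g : GG => ρ g x))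

/-! ## E. The elements of `G` -/

/-- **Row TRA** (short). The translations. -/
def TRA_stmt : Prop := ∀ c : ℚ, ∃ g : GG, ∀ x, ap g x = x + c

/-- **Row LAT** (short). The maximum of `g` and `h` has the inverse `x ↦ min (g⁻¹ x) (h⁻¹ x)` and conversely. -/
def LAT_stmt : Prop := ∀ g h : GG, (∃ k : GG, ∀ x, ap k x = max (ap g x) (ap h x)) ∧ ∃ k : GG, ∀ x, ap k x = min (ap g x) (ap h x)

/-- **Row PER** (short). An order automorphism `h` of `ℚ` with `h 0 = 0`, `h 1 = 1` has the periodization `x ↦ ⌊x⌋ + h (Int.fract x)`, with the inverse `x ↦ ⌊x⌋ + h⁻¹ (Int.fract x)`. -/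
def PER_stmt : Prop := ∀ h h' : ℚ → ℚ, StrictMono h → (∀ x, h (h' x) = x) → h 0 = 0 → h 1 = 1 → ∃ g : GG, ∀ x, 0 ≤ x → x ≤ 1 → ap g x = h x

/-- **Row ELM** (short-medium; from PER, the elementary moves). For `a ≤ b`: `h x = max x (min (s + (x - s) (b - s)/(a - s)) (1 - (1 - x) (1 - b)/(1 - a)))`, a lattice combination of increasing affine bijections of `ℚ` (inverse: `min x (max ..)` of the inverses). For `b ≤ a`: the inverse of the one for `(s, b, a)`, or `min x (max .. ..)`. -/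
def ELM_stmt : Prop := ∀ s a b : ℚ, 0 ≤ s → s < a → a < 1 → s < b → b < 1 → ∃ g : GG, (∀ x, 0 ≤ x → x ≤ s → ap g x = x) ∧ ap g a = b

/-- **Row APX** (short-medium; from LAT, ELM). `F` empty: `w = 1`. Else `w = max (min v k) l` with `k` from ELM for `(δ, min F, max (v F))` (`≥`, also `≥ min F`: any `b < 1` with `b ≥ v f` for all `f ∈ F` works; `v f < v 1 = 1`), so `k f ≥ k (min F) = b ≥ v f`, and `l` from ELM for `(δ, max F, b')`, `δ < b' ≤ v f` for all `f ∈ F`. -/
def APX_stmt : Prop := ∀ (v : GG) (F : Finset ℚ) (δ : ℚ), ap v 0 = 0 → 0 ≤ δ → (∀ f ∈ F, δ < f ∧ f < 1 ∧ δ < ap v f) → δ < 1 → ∃ w : GG, (∀ x, 0 ≤ x → x ≤ δ → ap w x = x) ∧ ∀ f ∈ F, ap w f = ap v f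

/-- **Row MOV** (short; from TRA, ELM). `I` empty: a translation. Else `a = min I`, `b = max I`, `t` = the translation by `a`, `w` from ELM for `s = b - a`, `1 - a`, `1 - a/2`: `g = t w t⁻¹`; `g x = a + w (x - a) = x` for `x ∈ I`, `g 1 = a + w (1 - a) = 1 + a/2`. -/
def MOV_stmt : Prop := ∀ I : Finset ℚ, (∀ x ∈ I, 0 < x ∧ x < 1) → ∃ g : GG, (∀ x ∈ I, ap g x = x) ∧ 0 < ap g 0 ∧ ap g 0 < 1

/-- **Row RED** (short). `F0` = the fractional parts `≠ 0` of the elements of `F`; `ap g (x + n) = ap g x + n` for integers `n`. -/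
def RED_stmt : Prop := ∀ F : Finset ℚ, ∃ F0 : Finset ℚ, (∀ x ∈ F0, 0 < x ∧ x < 1) ∧ ∀ g : GG, ap g 0 = 0 → (∀ x ∈ F0, ap g x = x) → ∀ x ∈ F, ap g x = x

/-- **Row GEN** (short; from ELM, TRA). Each `g` with `0 < g 0 < 1` is `v t v'` (ELM with `s = 0`: `v (t 0) = g 0`; `v' = t⁻¹ v⁻¹ g` fixes `0`), so it is in `S`. So `τ` = the translation by `1/2` is in `S`; for any `g` and `n = ⌊2 g 0⌋` the element `τ ^ (-n) g` maps `0` to a point of `[0, 1/2)`, so it is in `S`. -/
def GEN_stmt : Prop := ∀ (S : Subgroup GG) (t : GG), t ∈ S → 0 < ap t 0 → ap t 0 < 1 → (∀ v : GG, ap v 0 = 0 → v ∈ S) → S = ⊤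

/-! ## W. Weak limits in reflexive spaces -/

/-- `u` is the weak limit of `c` along the ultrafilter `hyperfilter ℕ` -/
def WL {E : Type} [NormedAddCommGroup E] [NormedSpace ℝ E] (c : ℕ → E) (u : E) : Prop := ∀ φ : StrongDual ℝ E, Tendsto (fun n => φ (c n)) (hyperfilter ℕ : Filter ℕ) (𝓝 (φ u))

/-- **Row WL1** (short-medium). For each `φ` the bounded sequence `φ (c n)` has a limit `L φ` along the ultrafilter (compactness of the closed ball); `L` is linear and `|L φ| ≤ B ‖φ‖`, so `L` is in the double dual (`LinearMap.mkContinuous`), and `L` is the image of some `u`. -/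
def WL1_stmt : Prop := ∀ (E : Type) [NormedAddCommGroup E] [NormedSpace ℝ E] (c : ℕ → E) (B : ℝ), Function.Surjective (NormedSpace.inclusionInDoubleDual ℝ E) → (∀ n, ‖c n‖ ≤ B) → ∃ u : E, WL c u

/-- **Row WL2** (short). Hahn-Banach: `φ` with `‖φ‖ ≤ 1`, `φ (u - u') = ‖u - u'‖` (`exists_dual_vector''`). -/
def WL2_stmt : Prop := ∀ (E : Type) [NormedAddCommGroup E] [NormedSpace ℝ E] (c c' : ℕ → E) (u u' : E) (B : ℝ), WL c u → WL c' u' → (∀ᶠ n in (hyperfilter ℕ : Filter ℕ), ‖c n - c' n‖ ≤ B) → ‖u - u'‖ ≤ B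

/-- **Row WL3** (short). `T x = L x + T 0` with `L` a linear isometry; `φ ∘ L` is a functional. -/
def WL3_stmt : Prop := ∀ (E : Type) [NormedAddCommGroup E] [NormedSpace ℝ E] (c : ℕ → E) (u : E) (T : E ≃ᵃⁱ[ℝ] E), WL c u → WL (fun n => T (c n)) (T u)

/-- **Row WL4** (short; Mazur). If `u` is not in the closure of the convex hull, there is `φ` with `φ a < s < φ u` for all `a` in it (`geometric_hahn_banach_closed_point`). -/
def WL4_stmt : Prop := ∀ (E : Type) [NormedAddCommGroup E] [NormedSpace ℝ E] (c : ℕ → E) (u : E), WL c u → u ∈ closure (convexHull ℝ (Set.range c))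

/-! ## F. The fixed point -/

/-- **Row CTB** (short; from BAS, RED). Continuity of `g ↦ ρ g y` at `1` (BAS) gives a finite set, RED makes it `⊆ (0, 1)`; `‖ρ g y - ρ h y‖ = ‖ρ (h⁻¹ g) y - y‖`. -/
def CTB_stmt : Prop := ∀ (E : Type) [NormedAddCommGroup E] [NormedSpace ℝ E] (ρ : GG →* (E ≃ᵃⁱ[ℝ] E)), (∀ v : E, Continuous (fun g : GG => ρ g v)) → ∀ (y : E) (ε : ℝ), 0 < ε →
  ∃ F : Finset ℚ, (∀ x ∈ F, 0 < x ∧ x < 1) ∧ ∀ g h : GG, ap g 0 = 0 → ap h 0 = 0 → (∀ x ∈ F, ap g x = ap h x) → ‖ρ g y - ρ h y‖ ≤ ε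

/-- **Row BDD** (medium; from ELM, APX, CTB). `F` from CTB for `ε = 1`. `F` empty: clear. Fix `g0` with `g0 0 = 0`, `g0 F < F` (ELM for `(0, max F, (min F)/2)`), `D = ‖g0⁻¹ y - y‖`.
(i) if `g 0 = 0` and `g F < F` then `‖g y - y‖ ≤ D + 2`: APX for `g⁻¹ g0`, `g0⁻¹ F`, `δ = max F` gives `k` with `k = id` on `F`, `k g0⁻¹ = g⁻¹` on `F`; `‖g⁻¹ y - y‖ ≤ ‖g⁻¹ y - k g0⁻¹ y‖ + ‖k g0⁻¹ y - k y‖ + ‖k y - y‖`.
(ii) `v 0 = 0`: choose `g` with `g 0 = 0`, `g F < F`, `g F < v F` (ELM); APX for `v`, `F`, `δ = max (g F)`: `h = v` on `F`, `h g = g` on `F`; `‖v y - g y‖ ≤ ‖v y - h y‖ + ‖h y - h g y‖ + ‖h g y - g y‖ ≤ 1 + (D + 2) + 1`. -/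
def BDD_stmt : Prop := ∀ (E : Type) [NormedAddCommGroup E] [NormedSpace ℝ E] (ρ : GG →* (E ≃ᵃⁱ[ℝ] E)), (∀ v : E, Continuous (fun g : GG => ρ g v)) → ∀ y : E, ∃ B : ℝ, ∀ v : GG, ap v 0 = 0 → ‖ρ v y - y‖ ≤ B

/-- **Row DEN** (short; from APX, CTB). For `η > 0`: `F` from CTB for `u`, `η`; `δ > 0` smaller than all `f` and all `v f`, `f ∈ F`; APX gives `w = v` on `F` with `w = id` on `[0, δ]`: `‖v u - u‖ ≤ ‖v u - w u‖ + ‖w u - u‖ ≤ η + ε`. -/
def DEN_stmt : Prop := ∀ (E : Type) [NormedAddCommGroup E] [NormedSpace ℝ E] (ρ : GG →* (E ≃ᵃⁱ[ℝ] E)), (∀ v : E, Continuous (fun g : GG => ρ g v)) → ∀ (u : E) (ε : ℝ),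
  (∀ (v : GG) (δ : ℚ), ap v 0 = 0 → 0 < δ → (∀ x, 0 ≤ x → x ≤ δ → ap v x = x) → ‖ρ v u - u‖ ≤ ε) → ∀ v : GG, ap v 0 = 0 → ‖ρ v u - u‖ ≤ ε

/-- **Row FXE** (short-medium; from ELM, CTB, DEN, BDD, WL1, WL2, WL3). `B` of BDD for `y`. Given `ε > 0`: `F` from CTB. `F` empty: `u = y`. Else `g_n ∈ V_0` with `g_n (max F) = 1/(n + 2)` (ELM with `s = 0`). `u` = the weak limit of `g_n y` (bounded by BDD, WL1). For `v ∈ V_0` with `v = id` on `[0, δ]`, `δ > 0`: `v g_n = g_n` on `F` for large `n`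
(`hyperfilter ≤ atTop`), so `‖v g_n y - g_n y‖ ≤ ε` and `‖v u - u‖ ≤ ε` (WL2, WL3); then DEN. Also `‖u - y‖ ≤ B` (the constant sequence `y` in WL2). -/
def FXE_stmt : Prop := ∀ (E : Type) [NormedAddCommGroup E] [NormedSpace ℝ E] (ρ : GG →* (E ≃ᵃⁱ[ℝ] E)), Function.Surjective (NormedSpace.inclusionInDoubleDual ℝ E) → (∀ v : E, Continuous (fun g : GG => ρ g v)) → ∀ y : E, ∃ B : ℝ, ∀ ε : ℝ, 0 < ε → ∃ u : E, ‖u - y‖ ≤ B ∧ ∀ v : GG, ap v 0 = 0 → ‖ρ v u - u‖ ≤ ε

/-- **Row FXV** (short; from FXE, WL1, WL2, WL3). `x_0` = the weak limit of the `u` of FXE for `ε = 1/(n + 1)`, `y = 0`. -/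
def FXV_stmt : Prop := ∀ (E : Type) [NormedAddCommGroup E] [NormedSpace ℝ E] (ρ : GG →* (E ≃ᵃⁱ[ℝ] E)), Function.Surjective (NormedSpace.inclusionInDoubleDual ℝ E) → (∀ v : E, Continuous (fun g : GG => ρ g v)) → ∃ x : E, ∀ v : GG, ap v 0 = 0 → ρ v x = x

/-- **Row FXU** (short-medium; from TRA, ELM, DEN, WL1, WL2, WL3). `x` is fixed by `V_0`; `t_n` = the translation by `1/(n + 2)`; `c n = t_n x` (bounded: `‖t_n x - x‖` does not depend on `n`, as `V_0` is transitive on `(0, 1)` by ELM with `s = 0`: `v t_n 0 = t_0 0`, so `v t_n x = t_0 x`, `‖t_n x - x‖ = ‖v t_n x - v x‖`). `u` = its weak limit. For `v ∈ V_0` with `v = id` on `[0, δ]`, `δ > 0`: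
`v t_n x = t_n x` for large `n` (`t_n⁻¹ v t_n 0 = 0`), so `‖v u - u‖ ≤ 0` (WL2, WL3); then DEN. -/
def FXU_stmt : Prop := ∀ (E : Type) [NormedAddCommGroup E] [NormedSpace ℝ E] (ρ : GG →* (E ≃ᵃⁱ[ℝ] E)) (x : E), Function.Surjective (NormedSpace.inclusionInDoubleDual ℝ E) → (∀ v : E, Continuous (fun g : GG => ρ g v)) → (∀ v : GG, ap v 0 = 0 → ρ v x = x) →
  ∃ (t : ℕ → GG) (u : E), (∀ n, 0 < ap (t n) 0 ∧ ap (t n) 0 < 1) ∧ WL (fun n => ρ (t n) x) u ∧ ∀ v : GG, ap v 0 = 0 → ρ v u = u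

/-- **Row FXM** (short-medium; from MOV, WL4). Given `t`, `u` as in FXU and `ε > 0`: `c` in the convex hull of the `ρ (t n) x` with `‖c - u‖ < ε` (WL4); `c = Σ w_i ρ (t (n i)) x` over a finite set (`mem_convexHull_iff_exists_fintype` or the like); `I` = the set of the `ap (t (n i)) 0`; `g` from MOV fixes `c` (`g t x = t x` if `g (t 0) = t 0`; affine maps commute with convex combinations:
`Finset.centerMass`, `AffineMap` .. or: the set of the fixed points of an affine map is convex). `‖g u - u‖ ≤ ‖g u - g c‖ + ‖c - u‖ < 2 ε`. -/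
def FXM_stmt : Prop := ∀ (E : Type) [NormedAddCommGroup E] [NormedSpace ℝ E] (ρ : GG →* (E ≃ᵃⁱ[ℝ] E)) (x u : E) (t : ℕ → GG), (∀ v : GG, ap v 0 = 0 → ρ v x = x) → (∀ n, 0 < ap (t n) 0 ∧ ap (t n) 0 < 1) → WL (fun n => ρ (t n) x) u →
  ∀ ε : ℝ, 0 < ε → ∃ g : GG, 0 < ap g 0 ∧ ap g 0 < 1 ∧ ‖ρ g u - u‖ < ε

/-- **Row FXG** (short; from ELM, TRA, GEN, FXV, FXU, FXM). `τ` = the translation by `1/2`. For `ε > 0` take `g` from FXM and `v ∈ V_0` with `v (g 0) = 1/2` (ELM, `s = 0`): `τ⁻¹ v g ∈ V_0`, so `τ u = v g u`, and `‖τ u - u‖ = ‖v g u - v u‖ = ‖g u - u‖ < ε`. So `τ u = u`; GEN for the stabilizer of `u`. -/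
def FXG_stmt : Prop := ∀ (E : Type) [NormedAddCommGroup E] [NormedSpace ℝ E] (ρ : GG →* (E ≃ᵃⁱ[ℝ] E)), Function.Surjective (NormedSpace.inclusionInDoubleDual ℝ E) → (∀ v : E, Continuous (fun g : GG => ρ g v)) → ∃ u : E, ∀ g : GG, ρ g u = u

end

end Pool.Agent.PQZ
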